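import Pool.Agent.V11223.DPF.Growth

/-!
# Perfectly secure three-party distributed point functions with subpolynomial keys

Let `a_x ∈ {0,1}^{n₂}`, `b_x ∈ {0,1}^{n₃}` (`x ∈ [N]`) be matching vectors: `⟨a_x,a_x⟩ ≡ 1 (mod p)`,
`⟨b_x,b_x⟩ ≡ 1 (mod q)`, `⟨b_α,b_x⟩ ∈ {0,1} (mod q)`, and for `x ≠ α` one of
`⟨a_α,a_x⟩ ≡ 0 (mod p)`, `⟨b_α,b_x⟩ ≡ 0 (mod q)` holds. Let `γ` be a `q`-th root of unity in
a ring `R` of characteristic `p`. The dealer shares `b_α = w₁ + w₂ + w₃` and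
`β γ^{-⟨w₁ - w₂, b_α⟩} a_α = u₁ + u₂ + u₃`, and party `i` gets the shares with index `≠ i`. With
`s_i = ⟨w_i,b_x⟩`, `G_i = ⟨u_i,a_x⟩` the sum of

* party 1: `γ^{-s₃-2s₂} (c₃ G₃ - c₂ G₂)`,
* party 2: `-γ^{2s₁+s₃} (c₁ G₁ + c₃ G₃)`,
* party 3: `γ^{s₁-s₂} (c₁ G₁ + c₂ G₂)`

with `c₁ = (1-γ)⁻¹`, `c₂ = (1-γ⁻¹)⁻¹`, `c₃ = (γ⁻¹-γ)⁻¹` is `0` if `⟨b_α,b_x⟩ = 0` and
`γ^{s₁-s₂} (G₁+G₂+G₃)` if `⟨b_α,b_x⟩ = 1`. Prime powers are reached by tensor powers of the `a_x`,
and all finite abelian groups by products.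
-/

namespace Pool.Agent.Results.MP_38e169_lc.PerfectThreeParty

open V11223.DPF V11223.ZAM Filter

theorem eventually_small (C : ℝ) (hC : 0 ≤ C) (ε : ℝ) (hε : 0 < ε) :
    ∀ᶠ N : ℕ in atTop, Real.exp (C * Real.sqrt (Real.log N * Real.log (Real.log N))) ≤
      (N : ℝ) ^ ε := by
  have hC1 : 0 < C + 1 := by linarith
  have h1 : ∀ᶠ x : ℝ in atTop, Real.log x ≤ (ε / (C + 1)) ^ 2 * x := by
    have := Real.isLittleO_log_id_atTop.def (by positivity : 0 < (ε / (C + 1)) ^ 2)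
    filter_upwards [this, eventually_ge_atTop 0] with x hx hx0
    have h2 : |Real.log x| ≤ (ε / (C + 1)) ^ 2 * |x| := by simpa using hx
    rw [abs_of_nonneg hx0] at h2
    exact (le_abs_self _).trans h2
  have h2 : Tendsto (fun n : ℕ => Real.log (n : ℝ)) atTop atTop :=
    Real.tendsto_log_atTop.comp tendsto_natCast_atTop_atTop
  filter_upwards [h2.eventually h1, eventually_ge_atTop 16] with n hn hn16
  have hL := log16 n hn16
  have hl := loglog16 n hn16
  have hn0 : (0 : ℝ) < n := by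
    have : 0 < n := by omega
    exact_mod_cast this
  rw [Real.rpow_def_of_pos hn0]
  apply Real.exp_le_exp.2
  have h3 : Real.sqrt (Real.log n * Real.log (Real.log n)) ≤ ε / (C + 1) * Real.log n := by
    rw [Real.sqrt_le_left (by positivity)]
    calc Real.log n * Real.log (Real.log n) ≤
        Real.log n * ((ε / (C + 1)) ^ 2 * Real.log n) := by gcongr
      _ = (ε / (C + 1) * Real.log n) ^ 2 := by ring
  have h4 : 0 ≤ Real.sqrt (Real.log n * Real.log (Real.log n)) := Real.sqrt_nonneg _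
  calc C * Real.sqrt (Real.log n * Real.log (Real.log n))
      ≤ (C + 1) * Real.sqrt (Real.log n * Real.log (Real.log n)) := by nlinarith
    _ ≤ (C + 1) * (ε / (C + 1) * Real.log n) := by gcongr
    _ = Real.log n * ε := by field_simp

/-- For every finite abelian group `G` there is a family of perfectly secure three-party
distributed point functions with output group `G`, one for each domain size `N`, with keys of at
most `exp(C √(log N · log log N))` bits for `N ≥ 16`, in particular of `N^{o(1)}` bits. -/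
theorem result (G : Type) [AddCommGroup G] [Finite G] :
    ∃ (F : (N : ℕ) → Scheme 3 N G) (size : ℕ → ℕ) (C : ℝ),
      (∀ N, (F N).Correct ∧ (F N).PerfectlySecure ∧ (F N).KeySizeLE (size N)) ∧
      (∀ N : ℕ, 16 ≤ N →
        (size N : ℝ) ≤ Real.exp (C * Real.sqrt (Real.log N * Real.log (Real.log N)))) ∧
      (∀ ε : ℝ, 0 < ε → ∀ᶠ N : ℕ in atTop, (size N : ℝ) ≤ (N : ℝ) ^ ε) := by
  obtain ⟨C, hC0, hC⟩ := growth_group G
  have key : ∀ N : ℕ, ∃ ℓ : ℕ, HasT N G ℓ ∧ (16 ≤ N → (ℓ : ℝ) ≤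
      Real.exp (C * Real.sqrt (Real.log N * Real.log (Real.log N)))) := by
    intro N
    by_cases hN : 16 ≤ N
    · obtain ⟨ℓ, h1, h2⟩ := hC N hN
      exact ⟨ℓ, h1, fun _ => h2⟩
    · obtain ⟨ℓ, h1, -⟩ := hC 16 le_rfl
      exact ⟨ℓ, h1.restrict (by omega), fun h => absurd h hN⟩
  choose size h1 h2 using key
  choose F hF1 hF2 hF3 using fun N => (h1 N).scheme
  refine ⟨F, size, C, fun N => ⟨hF1 N, hF2 N, hF3 N⟩, h2, ?_⟩
  intro ε hε
  filter_upwards [eventually_small C hC0 ε hε, eventually_ge_atTop 16] with N hN hN16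
  exact (h2 N hN16).trans hN

end Pool.Agent.Results.MP_38e169_lc.PerfectThreeParty
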